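import Pool.Agent.Run7.h527.TP.Ex
import Pool.Agent.Results.MP_2d259b_nt.MultiplicativeValues

/-!
# Bounds for the integer points on the curves `F(x, y) = t` with `t` near aliquot sums, cototients and arithmetic derivatives

Let `g(m)` be the sum of the proper divisors of `m`, the cototient `m - φ(m)`, the arithmetic derivative `m'` (with `p' = 1`
for primes and Leibniz' rule), or any positive combination `α m + β f(m)` with `f = σ`, `φ` or the arithmetic derivative. Let
`G` have steps bounded below by a positive constant and growth at most `v^δ`, let `d ≥ 4`, `η, κ ≥ 0` and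
`δ (1 / d + η (d + 1) (d + 2) / 2) + κ < τ ≤ 1`. For all `m ≤ N` which have two prime factors `p ≠ q`, not dividing
`m / (p q) ≥ 2`, with `p q ≥ m^τ`, but at most `N^(1 - ξ)` of them, for EVERY integer `t` with `||t| - G (g m)| ≤ g(m)^κ` and
ALL polynomials `F ∈ ℤ[x, y]` of degree `d` with squarefree leading form and length at most `K (1 + |t|) ^ η`, all integer
points of the curve `F(x, y) = t` satisfy an explicit polynomial bound. For `δ = 1`, `η = κ = 0` this concerns nearly all `m`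
(`τ` near `1 / d`).

Proof. Write `m = k p q`. Then `g(m) = a p q + b (p + q) + c` with integers `a ≠ 0`, `b`, `c` which depend on `k` only, and
`(a p + b) (a q + b) = a g(m) + b² - a c`. So for given `k ≤ N^(1 - τ)` every value is taken for at most `N^ε` pairs `p`, `q`
(the tool `Run7/h527/TP`), and the exceptional integers `t` are few by the starting theorems `FibresOffPolynomialValues` and
`FewExceptionalCurves` (lemma `countS` of the starting file `MultiplicativeValues`).
-/

set_option autoImplicit false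

namespace Pool.Agent.Results.MP_2d259b_nt.AliquotSums

open Pool.Agent.N733.TG (Expanding expanding_pow)
open Pool.Agent.Results.MP_2d259b_nt.MultiplicativeValues (len Regular Bounded fin_abs countS)
open Run7.h527.TP (Bil Two good aliquot cototient deriv sig comb)

/-- **Theorem.** Let `g` be of the class `Bil`, let `G` have steps `≥ a > 0` and growth at most `v ^ δ`. Let `d ≥ 4`,
`η, κ ≥ 0`, and `δ (1 / d + η (d + 1) (d + 2) / 2) + κ < τ ≤ 1`. For all `K` there is `ξ > 0` such that for all large `N`, for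
all `m ≤ N` with `Two τ m` but at most `N ^ (1 - ξ)`, for EVERY integer `t` with `||t| - G (g m)| ≤ g(m) ^ κ` and ALL
polynomials `F ∈ ℤ[x, y]` of degree `d` with squarefree leading form and `h(F) ≤ K (1 + |t|) ^ η`, all integer points
`(x, y)` of `F(x, y) = t` satisfy `max(|x|, |y|) ≤ ((d + 1) (h(F) + |t|)) ^ (10 ^ 17 * 1296 ^ d * (d + 1) ^ 15)`. The sum of
the proper divisors, the cototient, the arithmetic derivative and their positive combinations with the identity are examples
of such functions `g`. -/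
theorem result :
    (∀ g : ℕ → ℕ, Bil g → ∀ (G : ℕ → ℝ) (δ : ℝ), Expanding G δ → ∀ (d : ℕ) (η κ τ : ℝ), 4 ≤ d → 0 ≤ η → 0 ≤ κ →
      δ * (1 / (d : ℝ) + η * (((d + 1) * (d + 2) / 2 : ℕ) : ℝ)) + κ < τ → τ ≤ 1 →
      ∀ K : ℝ, ∃ ξ : ℝ, 0 < ξ ∧ ∃ N₀ : ℕ, ∀ N : ℕ, N₀ ≤ N →
      ({m : ℕ | 1 ≤ m ∧ m ≤ N ∧ Two τ m ∧ ¬ ∀ t : ℤ, |(|t| : ℝ) - G (g m)| ≤ (g m : ℝ) ^ κ →
        ∀ F : MvPolynomial (Fin 2) ℤ, Regular d F → (len F : ℝ) ≤ K * (1 + |(t : ℝ)|) ^ η →
          Bounded d F t}.ncard : ℝ) ≤ (N : ℝ) ^ (1 - ξ)) ∧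
    (Bil aliquot ∧ Bil cototient ∧ Bil deriv ∧
      (∀ α β : ℤ, (∀ m : ℕ, 2 ≤ m → 0 < α * m + β * sig m) → Bil (comb α β sig)) ∧
      (∀ α β : ℤ, (∀ m : ℕ, 2 ≤ m → 0 < α * m + β * Nat.totient m) → Bil (comb α β Nat.totient)) ∧
      ∀ α β : ℤ, (∀ m : ℕ, 2 ≤ m → 0 < α * m + β * deriv m) → Bil (comb α β deriv)) ∧
    ∀ α δ : ℝ, 0 < α → 1 ≤ δ → Expanding (fun v => α * (v : ℝ) ^ δ) δ := by
  refine ⟨fun g hg G δ hG d η κ τ hd hη hκ h1 hτ K => ?_, Run7.h527.TP.examples, fun α d hα hd => expanding_pow hα hd⟩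
  obtain ⟨ξ, hξ, N₀, hN₀⟩ := good (T := ℤ) (fun _ => True)
    (fun t => ∀ F : MvPolynomial (Fin 2) ℤ, Regular d F → (len F : ℝ) ≤ K * (1 + |(t : ℝ)|) ^ η → Bounded d F t)
    (fun t : ℤ => |(t : ℝ)|) hg hG
    (s := 1 / (d : ℝ) + η * (((d + 1) * (d + 2) / 2 : ℕ) : ℝ)) (κ := κ) (by positivity) hκ h1 hτ (fun ε hε => by
      obtain ⟨C, hC⟩ := countS d hd K η hη
      have hC0 : 0 ≤ C := by
        have h2 := hC 1 le_rfl
        rw [Real.one_rpow, mul_one] at h2
        exact le_trans (Nat.cast_nonneg _) h2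
      refine ⟨C, fun X hX => ⟨fin_abs _ X, ?_⟩⟩
      refine le_trans (le_of_eq ?_) ((hC X hX).trans (mul_le_mul_of_nonneg_left
        (Real.rpow_le_rpow_of_exponent_le hX (by linarith)) hC0))
      congr 2
      ext t
      simp only [Set.mem_ofPred_eq, true_and]
      push Not
      rfl)
  refine ⟨ξ, hξ, N₀, fun N hN => le_trans (le_of_eq ?_) (hN₀ N hN)⟩
  congr 2
  ext m
  simp only [Set.mem_ofPred_eq, true_imp_iff]

end Pool.Agent.Results.MP_2d259b_nt.AliquotSums
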