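import Mathlib
import Pool.Agent.Run7.h28.BV.CurP2
import Pool.Agent.Run7.h28.BV.UNear

/-!
# All plane curves: a computable bound for the integral points with sparse abscissa near an
unramified point

The question is whether the integer points of a plane curve `f (x, y) = 0` with finitely many integer
points can be bounded by a computable function of `f`.  We prove that for all curves of given degrees,
over all number fields `L` of bounded discriminant, the integral points with sparse abscissa `x`, such
that the polynomial `f (x, Y)` is at one place near a separable split polynomial after scaling, are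
bounded by the computable function `(C M) ^ C` of the height `M` of `f`, with a constant `C`, unless the
point lies on a component of the curve which is an image of the multiplicative group and on which `x`
is not constant.  The ordinate `y` is arbitrary.
-/

open Height NumberField IsDedekindDomain

namespace Pool.Agent.Results.MP_2d259b_nt.AllPlaneCurvesNearSplit

/-- The places of a number field, infinite or finite. -/
abbrev Place (K : Type) [Field K] [NumberField K] : Type :=
  InfinitePlace K ⊕ HeightOneSpectrum (𝓞 K)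

/-- The absolute value of a place, as normalised in Mathlib. -/
noncomputable def absv {K : Type} [Field K] [NumberField K] : Place K → AbsoluteValue K ℝ
  | Sum.inl w => w.1
  | Sum.inr v => (FinitePlace.mk v).1

/-- The finite places of `L` above the positive integers in `S`. -/
def primesAbove (L : Type) [Field L] [NumberField L] (S : Finset ℕ) :
    Set (HeightOneSpectrum (𝓞 L)) :=
  {w | ∃ p ∈ S, p ≠ 0 ∧ ((p : ℕ) : 𝓞 L) ∈ w.asIdeal}

/-- The infinite places of `L` and the finite ones above `S`. -/
def placesAbove (L : Type) [Field L] [NumberField L] (S : Finset ℕ) : Set (Place L) :=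
  {v | ∀ w, v = Sum.inr w → w ∈ primesAbove L S}

section

variable {K : Type} [Field K] [NumberField K]

/-- `x` is a sum of `k` elements of `Γ` with coefficients in `K` of height at most `M`. -/
def IsSparse (Γ : Subgroup Kˣ) (k : ℕ) (M : ℝ) (x : K) : Prop :=
  ∃ (a : Fin k → K) (u : Fin k → Kˣ), (∀ r, mulHeight₁ (a r) ≤ M) ∧ (∀ r, u r ∈ Γ) ∧
    x = ∑ r, a r * (u r : K)

/-- After scaling, the polynomial `F` is `v`-adically close to a separable and split polynomial `E`
of degree `q` with coefficients of height at most `M`: there are `a, z ∈ Γ` of height at most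
`M h ^ B` such that the coefficients of `a F (z Y) - E (Y)` of index at most `q` are at most
`M h ^ (-δ)` at `v`.  See `near_of_close` for the main example. -/
def IsNearSplit (Γ : Subgroup Kˣ) (v : Place K) (B δ M h : ℝ) (q : ℕ) (F : Polynomial K) : Prop :=
  ∃ (a z : Kˣ) (E : Polynomial K), a ∈ Γ ∧ z ∈ Γ ∧ E.natDegree = q ∧ E.Separable ∧ E.Splits ∧
    (∀ j, mulHeight₁ (E.coeff j) ≤ M) ∧ mulHeight₁ (a : K) ≤ M * h ^ B ∧
    mulHeight₁ (z : K) ≤ M * h ^ B ∧
    ∀ j ≤ q, absv v ((a : K) * (z : K) ^ j * F.coeff j - E.coeff j) ≤ M * h ^ (-δ)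

end

lemma absv_eq {K : Type} [Field K] [NumberField K] (v : Place K) :
    absv v = Pool.Agent.W180.OP.av v := by
  cases v with
  | inl w => rfl
  | inr w => rfl

lemma near_iff {K : Type} [Field K] [NumberField K] (Γ : Subgroup Kˣ) (v : Place K)
    (B δ M h : ℝ) (q : ℕ) (F : Polynomial K) :
    IsNearSplit Γ v B δ M h q F ↔ Pool.Agent.Run7.h28.BV.Near Γ v B δ M h q F := by
  unfold IsNearSplit Pool.Agent.Run7.h28.BV.Near
  rw [absv_eq]

lemma finite_placesAbove (L : Type) [Field L] [NumberField L] (S : Finset ℕ) :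
    (placesAbove L S).Finite := by
  have h1 : placesAbove L S ⊆ Set.range (Sum.inl : InfinitePlace L → Place L) ∪
      Sum.inr '' primesAbove L S := by
    rintro (w | w) hw
    · exact Or.inl ⟨w, rfl⟩
    · exact Or.inr ⟨w, hw w rfl, rfl⟩
  exact ((Set.finite_range _).union
    ((Pool.Agent.Run7.h28.BV.finite_prAbove L S).image _)).subset h1

/-- The main example: the point `x` is `v`-adically close to a point `c` of height at most `M` at
which the curve is unramified over the line: `f (c, Y)` has degree `q` and is separable and split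
over `K`. -/
theorem near_of_close (q D : ℕ) (K : Type) [Field K] [NumberField K] : ∃ C : ℝ, 1 ≤ C ∧
      ∀ (Γ : Subgroup Kˣ) (v : Place K) (B δ M h : ℝ) (f : Polynomial (Polynomial K)) (x c : K),
        0 ≤ B → 0 ≤ δ → 1 ≤ M → 1 ≤ h → f.natDegree ≤ q → (∀ j, (f.coeff j).natDegree ≤ D) →
        (∀ j i, mulHeight₁ ((f.coeff j).coeff i) ≤ M) → mulHeight₁ c ≤ M →
        absv v (x - c) ≤ M * h ^ (-δ) → (f.map (Polynomial.evalRingHom c)).natDegree = q →
        (f.map (Polynomial.evalRingHom c)).Separable →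
        (f.map (Polynomial.evalRingHom c)).Splits →
        IsNearSplit Γ v B δ ((C * M) ^ C) h q (f.map (Polynomial.evalRingHom x)) := by
  obtain ⟨C, hC, h⟩ := Pool.Agent.Run7.h28.BV.near_of_close (Pool.Agent.Run7.h28.BV.FP q D) K
  obtain ⟨C', hC', h'⟩ := Pool.Agent.Run7.h28.BV.ht_adjoin_coeffP q D K
  obtain ⟨C2, hC2, hb⟩ := Pool.Agent.Run7.h28.BV.bound_comp (C0 := C) (C3 := C')
    (by linarith) hC'
  refine ⟨C2, hC2, fun Γ v B δ M t f x c h1 h2 h3 h4 h5 h6 h7 h8 h9 h10 h11 h12 => ?_⟩
  have hmap : ∀ x : K, (Pool.Agent.Run7.h28.BV.FP q D).map (MvPolynomial.eval₂Hom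
      (Pool.Agent.Run7.h28.BV.sP q D f) (fun _ => x)) = f.map (Polynomial.evalRingHom x) := by
    intro x
    have h1 := Pool.Agent.Run7.h28.BV.FP_map q D f h5 h6 (RingHom.id K) (fun _ => x)
    rw [RingHom.id_comp] at h1
    rw [h1]
    rfl
  have hMM : M ≤ (C' * M) ^ C' := by
    have h5 : 1 ≤ C' * M := by nlinarith
    calc M ≤ C' * M := by nlinarith
      _ = (C' * M) ^ (1 : ℝ) := (Real.rpow_one _).symm
      _ ≤ (C' * M) ^ C' := Real.rpow_le_rpow_of_exponent_le h5 hC'
  have key := h Γ v B δ ((C' * M) ^ C') t (Pool.Agent.Run7.h28.BV.sP q D f) (fun _ => x)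
    (fun _ => c) h1 h2 (h3.trans hMM) h4 (h' M f h3 h7) (fun _ => h8.trans hMM)
    (fun _ => by
      rw [absv_eq] at h9
      exact h9.trans (mul_le_mul_of_nonneg_right hMM (Real.rpow_nonneg (by linarith) _)))
    (by rw [hmap, Pool.Agent.Run7.h28.BV.FP_deg]; exact h10) (by rw [hmap]; exact h11)
    (by rw [hmap]; exact h12)
  rw [hmap, Pool.Agent.Run7.h28.BV.FP_deg] at key
  rw [near_iff]
  exact key.monoM (hb M _ h3 le_rfl) (by linarith)

/-- Let `q ≥ 1`, `D`, `k`, `Δ` be natural numbers, `B` and `δ > 0` real numbers and `S` a finite set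
of primes.  There is a constant `C` such that for all number fields `L ⊆ ℂ` with `|disc L| ≤ Δ`, all
places `v` of `L` which are infinite or above `S`, all `M ≥ 1`, all polynomials `f (x, y)` over `L` of
degree at most `D` in `x` and at most `q` in `y` with coefficients of height at most `M`, and all
points `(x, y)` over `L` with `f (x, y) = 0` for which
* `x` is a sum of `k` `S`-units of `L` with coefficients in `L` of height at most `M`,
* `b y` is `S`-integral for some `b ≠ 0` in `L` of height at most `M`,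
* the polynomial `f (x, Y)` is, after scaling by `S`-units, `v`-adically at distance at most
  `M H (x) ^ (-δ)` from a separable split polynomial of degree `q` with coefficients of height at
  most `M`,
either `(x, y) = (X (1), Y (1))` for Laurent polynomials `X`, `Y` over `L`, `X` not constant, with
`f (X, Y) = 0`, or `H (x) ≤ (C M) ^ C`, and `H (y) ≤ (C M) ^ C` if `y ^ q` has the coefficient `1`
in `f`. -/
theorem result (q D k Δ : ℕ) (hq : 0 < q) (B δ : ℝ) (hδ : 0 < δ) (S : Finset ℕ) :
    ∃ C : ℝ, 1 ≤ C ∧ ∀ (L : IntermediateField ℚ ℂ) [NumberField L], |discr L| ≤ Δ →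
      ∀ v ∈ placesAbove L S, ∀ (M : ℝ) (f : Polynomial (Polynomial L)) (x y b : L), 1 ≤ M →
        f.natDegree ≤ q → (∀ j, (f.coeff j).natDegree ≤ D) →
        (∀ j i, mulHeight₁ ((f.coeff j).coeff i) ≤ M) → f.evalEval x y = 0 →
        IsSparse ((primesAbove L S).unit L) k M x →
        b ≠ 0 → mulHeight₁ b ≤ M →
        (∀ w, w ∉ primesAbove L S → absv (Sum.inr w : Place L) (b * y) ≤ 1) →
        IsNearSplit ((primesAbove L S).unit L) v B δ M (mulHeight₁ x) q
          (f.map (Polynomial.evalRingHom x)) →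
        (∃ X Y : LaurentPolynomial L,
          LaurentPolynomial.eval₂ (RingHom.id L) 1 X = x ∧
          LaurentPolynomial.eval₂ (RingHom.id L) 1 Y = y ∧
          (f.map (Polynomial.eval₂RingHom LaurentPolynomial.C X)).eval Y = 0 ∧
          ¬ ∃ a, X = LaurentPolynomial.C a) ∨
        mulHeight₁ x ≤ (C * M) ^ C ∧ (f.coeff q = 1 → mulHeight₁ y ≤ (C * M) ^ C) := by
  refine Pool.Agent.Run7.h28.BV.uniform_disc Δ (fun L _ => Place L)
    (fun L _ => placesAbove L S) (fun L _ => finite_placesAbove L S)
    (fun L _ v C => ∀ (M : ℝ) (f : Polynomial (Polynomial L)) (x y b : L), 1 ≤ M →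
        f.natDegree ≤ q → (∀ j, (f.coeff j).natDegree ≤ D) →
        (∀ j i, mulHeight₁ ((f.coeff j).coeff i) ≤ M) → f.evalEval x y = 0 →
        IsSparse ((primesAbove L S).unit L) k M x →
        b ≠ 0 → mulHeight₁ b ≤ M →
        (∀ w, w ∉ primesAbove L S → absv (Sum.inr w : Place L) (b * y) ≤ 1) →
        IsNearSplit ((primesAbove L S).unit L) v B δ M (mulHeight₁ x) q
          (f.map (Polynomial.evalRingHom x)) →
        (∃ X Y : LaurentPolynomial L,
          LaurentPolynomial.eval₂ (RingHom.id L) 1 X = x ∧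
          LaurentPolynomial.eval₂ (RingHom.id L) 1 Y = y ∧
          (f.map (Polynomial.eval₂RingHom LaurentPolynomial.C X)).eval Y = 0 ∧
          ¬ ∃ a, X = LaurentPolynomial.C a) ∨
        mulHeight₁ x ≤ (C * M) ^ C ∧ (f.coeff q = 1 → mulHeight₁ y ≤ (C * M) ^ C))
    (fun L _ v C C' h1 h2 h3 h4 M f x y b a1 a2 a3 a4 a5 a6 a7 a8 a9 a10 =>
      (h4 M f x y b a1 a2 a3 a4 a5 a6 a7 a8 a9 a10).imp_right fun h5 =>
        ⟨Pool.Agent.Run7.h28.BV.bound_mono h1 h2 h3 a1 h5.1,
          fun h6 => Pool.Agent.Run7.h28.BV.bound_mono h1 h2 h3 a1 (h5.2 h6)⟩)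
    (fun L _ v _ => ?_)
  have hfin := Pool.Agent.Run7.h28.BV.finite_prAbove L S
  obtain ⟨C, hC, h⟩ := Pool.Agent.Run7.h28.BV.planeY q D k hq B δ hδ L
    ((primesAbove L S).unit L) (Pool.Agent.H39R3.Tor.sunit_fg L _ hfin) v hfin.toFinset
  refine ⟨C, by linarith, fun M f x y b a1 a2 a3 a4 a5 a6 a7 a8 a9 a10 =>
    h M f x y b a1 a2 a3 a4 a5 a6 a7 a8 (fun w hw => ?_) ((near_iff _ _ _ _ _ _ _ _).1 a10)⟩
  have h8 := a9 w (fun h9 => hw (hfin.mem_toFinset.2 h9))
  rw [absv_eq] at h8
  exact h8

end Pool.Agent.Results.MP_2d259b_nt.AllPlaneCurvesNearSplit
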