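import Pool.Agent.Run7.h953.KB.End

/-!
# The limit law of the integer solutions of a random polynomial of bounded bidegree with at least `k` integer solutions

Consider all polynomials `f` in `ℤ[x, y]` of degree at most `a` in `x` and at most `b` in `y` with
coefficients in `[-H, H]` and a nonzero coefficient of `x ^ a y ^ b`; let `N = (a + 1)(b + 1)` be
the number of the coefficients. Let `k ≥ 1` and `min(a, b) ≥ k + 5`. As `H → ∞`, the number of the
`f` for which the set `Z(f)` of all integer solutions of `f = 0` is finite and has at least `k`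
elements is `(∑ V(S) + o(1)) H ^ (N - k)`, where `S` runs through all sets of `k` points of
`ℤ ^ 2`; the number of the `f` for which `Z(f)` is infinite is of smaller order. For almost all of
them `Z(f)` has exactly `k` elements and `f` is absolutely irreducible, and the law of `Z(f)`
converges in total variation to the law with weights proportional to `V`. A function `B(H)` bounds
all integer solutions for almost all of these `f` if and only if it tends to infinity.
-/

set_option autoImplicit false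

open Filter Topology

namespace Pool.Agent.Results.MP_2d259b_nt.ManyPointsBidegree

/-- the polynomials of degree at most `a` in `x` and at most `b` in `y` with coefficients in
`[-H, H]` and a nonzero coefficient of `x ^ a y ^ b` -/
def Box (a b H : ℕ) : Set (MvPolynomial (Fin 2) ℤ) :=
  {f | f.degreeOf 0 ≤ a ∧ f.degreeOf 1 ≤ b ∧ (∀ m, |f.coeff m| ≤ (H : ℤ)) ∧
    f.coeff (Finsupp.single 0 a + Finsupp.single 1 b) ≠ 0}

/-- the integer solutions of `f = 0` -/
def Z (f : MvPolynomial (Fin 2) ℤ) : Set (ℤ × ℤ) := {P | MvPolynomial.eval ![P.1, P.2] f = 0}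

/-- the number of the `f` in the box for which `Z(f)` is finite and contains some member of `A` -/
noncomputable def number (a b : ℕ) (A : Set (Finset (ℤ × ℤ))) (H : ℕ) : ℕ :=
  Set.ncard {f ∈ Box a b H | (Z f).Finite ∧ ∃ S ∈ A, (S : Set (ℤ × ℤ)) ⊆ Z f}

/-- the sets of `k` points -/
def Sets (k : ℕ) : Set (Finset (ℤ × ℤ)) := {S | S.card = k}

/-- the size of a point -/
def size (P : ℤ × ℤ) : ℕ := max P.1.natAbs P.2.natAbs

/-- the sets of `k` points, one of which has size larger than `T` -/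
def Large (k T : ℕ) : Set (Finset (ℤ × ℤ)) := {S | S.card = k ∧ ∃ P ∈ S, T < size P}

/-- the product of the sizes of the points of `S`, where sizes `0` are replaced by `1` -/
def product (S : Finset (ℤ × ℤ)) : ℕ := ∏ P ∈ S, max 1 (size P)

/-- the product of the numbers `|x| ^ a |y| ^ b` for the points of `S`, where coordinates `0` are
replaced by `1` -/
def monomials (a b : ℕ) (S : Finset (ℤ × ℤ)) : ℕ :=
  ∏ P ∈ S, max 1 P.1.natAbs ^ a * max 1 P.2.natAbs ^ b

/-- the probability measure on the sets of `k` points with weights proportional to `V` -/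
noncomputable def μ (V : Finset (ℤ × ℤ) → ℝ) (k : ℕ) (A : Set (Finset (ℤ × ℤ))) : ℝ :=
  (∑' S : A, V S.1) / ∑' S : Sets k, V S.1

open Pool.Agent.Run7.h953.KP Pool.Agent.Run7.h953.KB Pool.Agent.R414.DN
open Pool.Agent.N656.BD (Ix G pB ex ncard_pol card_Ix eval_pB coeff_pB)

lemma mem_Z {a b : ℕ} (w : Ix a b → ℤ) (P : ℤ × ℤ) :
    P ∈ Z (pB (i := a + 2) (j := b + 2) w) ↔ (fmB a b).Ev w P = 0 := by
  unfold Z
  rw [Set.mem_ofPred_eq, eval_pB, Ev_eq]

lemma Z_eq {a b : ℕ} (w : Ix a b → ℤ) :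
    Z (pB (i := a + 2) (j := b + 2) w) = {P : ℤ × ℤ | (fmB a b).Ev w P = 0} := by
  ext P
  exact mem_Z w P

lemma ex_tp (a b : ℕ) : (Finsupp.single 0 (a + 2) + Finsupp.single 1 (b + 2) : Fin 2 →₀ ℕ) =
    ex (i := a + 2) (j := b + 2) (tp a b) := by
  ext i
  fin_cases i
  · simp [Pool.Agent.N656.BD.ex_zero, tp, Pool.Agent.N656.BD.ix]
  · simp [Pool.Agent.N656.BD.ex_one, tp, Pool.Agent.N656.BD.ix]

lemma ncard_box (a b H : ℕ) (C : MvPolynomial (Fin 2) ℤ → Prop) :
    Set.ncard {f ∈ Box (a + 2) (b + 2) H | C f} =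
      Set.ncard {w : Ix a b → ℤ | w ∈ ibox (Ix a b) H ∧ w (tp a b) ≠ 0 ∧
        C (pB (i := a + 2) (j := b + 2) w)} := by
  have h1 := ncard_pol a b H (fun f =>
    f.coeff (Finsupp.single 0 (a + 2) + Finsupp.single 1 (b + 2)) ≠ 0 ∧ C f)
  have h2 : {f ∈ Box (a + 2) (b + 2) H | C f} =
      {F : MvPolynomial (Fin 2) ℤ | (F.degreeOf 0 ≤ a + 2 ∧ F.degreeOf 1 ≤ b + 2 ∧
      ∀ m, |F.coeff m| ≤ (H : ℤ)) ∧
        (F.coeff (Finsupp.single 0 (a + 2) + Finsupp.single 1 (b + 2)) ≠ 0 ∧ C F)} := by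
    ext f
    constructor
    · rintro ⟨⟨h3, h4, h5, h6⟩, h7⟩
      exact ⟨⟨h3, h4, h5⟩, h6, h7⟩
    · rintro ⟨⟨h3, h4, h5⟩, h6, h7⟩
      exact ⟨⟨h3, h4, h5, h6⟩, h7⟩
  rw [h2, h1]
  congr 1
  ext w
  constructor
  · rintro ⟨h3, h4, h5⟩
    rw [ex_tp, coeff_pB] at h4
    exact ⟨mem_ibox.2 (Pool.Agent.N656.BD.mem_box.1 h3), h4, h5⟩
  · rintro ⟨h3, h4, h5⟩
    refine ⟨Pool.Agent.N656.BD.mem_box.2 (mem_ibox.1 h3), ?_, h5⟩
    rw [ex_tp, coeff_pB]
    exact h4

lemma ncard_fam (a b H : ℕ) (C : MvPolynomial (Fin 2) ℤ → Prop) :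
    Set.ncard {f ∈ Box (a + 2) (b + 2) H | (Z f).Finite ∧ C f} =
      Set.ncard {w : Ix a b → ℤ | w ∈ (fmB a b).fam (tp a b) H ∧
        C (pB (i := a + 2) (j := b + 2) w)} := by
  rw [ncard_box a b H (fun f => (Z f).Finite ∧ C f)]
  congr 1
  ext w
  constructor
  · rintro ⟨h3, h4, h5, h6⟩
    rw [Z_eq] at h5
    exact ⟨(fmB a b).mem_fam.2 ⟨h3, h4, h5⟩, h6⟩
  · rintro ⟨h3, h6⟩
    obtain ⟨h3, h4, h5⟩ := (fmB a b).mem_fam.1 h3
    rw [← Z_eq] at h5
    exact ⟨h3, h4, h5, h6⟩

lemma through {a b : ℕ} (w : Ix a b → ℤ) (S : Finset (ℤ × ℤ)) :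
    (S : Set (ℤ × ℤ)) ⊆ Z (pB (i := a + 2) (j := b + 2) w) ↔
      ∀ P ∈ S, (fmB a b).Ev w P = 0 := by
  constructor
  · intro h P hP
    exact (mem_Z w P).1 (h (Finset.mem_coe.2 hP))
  · intro h P hP
    exact (mem_Z w P).2 (h P (Finset.mem_coe.1 hP))

lemma product_eq (S : Finset (ℤ × ℤ)) : (product S : ℝ) = pt S := by
  unfold product pt tau
  rw [Nat.cast_prod]
  refine Finset.prod_congr rfl fun P _ => ?_
  rw [Nat.cast_max, Nat.cast_one]
  rfl

lemma inT_univ {k : ℕ} : inT k (Sets k) = Set.univ := by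
  ext i
  exact ⟨fun _ => Set.mem_univ _, fun _ => i.2⟩

lemma exists_large {k : ℕ} (hk : 1 ≤ k) (T : ℕ) : ∃ S, S ∈ Large k T := by
  classical
  refine ⟨(Finset.range k).image fun j : ℕ => ((T : ℤ) + 1 + j, (0 : ℤ)), ?_, ?_⟩
  · rw [Finset.card_image_of_injective _ (fun a b h => by
      have := congrArg Prod.fst h
      simp only at this
      have h2 : (a : ℤ) = b := by linarith
      exact_mod_cast h2), Finset.card_range]
  · refine ⟨((T : ℤ) + 1 + (0 : ℕ), 0), Finset.mem_image.2 ⟨0, Finset.mem_range.2 hk, rfl⟩, ?_⟩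
    unfold size
    simp only
    omega

section

variable {a b k : ℕ} (he : k + 5 ≤ min a b + 2)

/-- the data -/
noncomputable def D : LawData :=
  (fmB a b).datF he (tp a b) (tp_notMem a b) (fewBig (by omega))

lemma number_eq {A : Set (Finset (ℤ × ℤ))} (hA : ∀ S ∈ A, S.card = k) (H : ℕ) :
    (number (a + 2) (b + 2) A H : ℝ) = (D he).N (inT k A) H := by
  unfold D
  rw [datF_N (fmB a b) he _ _ _ hA]
  unfold number
  rw [ncard_fam a b H (fun f => ∃ S ∈ A, (S : Set (ℤ × ℤ)) ⊆ Z f)]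
  congr 2
  ext w
  constructor
  · rintro ⟨h1, S, h2, h3⟩
    exact ⟨h1, S, h2, (through w S).1 h3⟩
  · rintro ⟨h1, S, h2, h3⟩
    exact ⟨h1, S, h2, (through w S).2 h3⟩

end

theorem result (a b : ℕ) (ha : 6 ≤ a) (hb : 6 ≤ b) : ∃ V : Finset (ℤ × ℤ) → ℝ, ∀ k : ℕ, 1 ≤ k →
    k + 5 ≤ min a b →
    -- the weights and the law
    (∀ S ∈ Sets k, 0 < V S) ∧ Summable (fun S : Sets k => V S.1) ∧
    (∃ c C : ℝ, 0 < c ∧ ∀ S ∈ Sets k, c / (monomials a b S : ℝ) ≤ V S ∧
      V S ≤ C / (product S : ℝ) ^ (min a b + 1 - k)) ∧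
    (∃ c C : ℝ, 0 < c ∧ ∀ T : ℕ, 1 ≤ T →
      c / (T : ℝ) ^ (min a b - 1) ≤ μ V k (Large k T) ∧
        μ V k (Large k T) ≤ C / (T : ℝ) ^ (min a b - k - 1)) ∧
    -- the number of polynomials with given integer solutions
    (∀ S ∈ Sets k, Tendsto (fun H : ℕ => (Set.ncard {f ∈ Box a b H | (Z f).Finite ∧
      (S : Set (ℤ × ℤ)) ⊆ Z f} : ℝ) / (H : ℝ) ^ ((a + 1) * (b + 1) - k)) atTop (𝓝 (V S))) ∧
    -- the number of polynomials with finitely many and at least `k` integer solutions
    Tendsto (fun H : ℕ => (number a b (Sets k) H : ℝ) / (H : ℝ) ^ ((a + 1) * (b + 1) - k)) atTop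
      (𝓝 (∑' S : Sets k, V S.1)) ∧
    -- polynomials with infinitely many integer solutions are much fewer
    Tendsto (fun H : ℕ => (Set.ncard {f ∈ Box a b H | ¬ (Z f).Finite} : ℝ) /
      number a b (Sets k) H) atTop (𝓝 0) ∧
    -- almost all have exactly `k` integer solutions and are absolutely irreducible
    Tendsto (fun H : ℕ => (Set.ncard {f ∈ Box a b H | (Z f).Finite ∧ k ≤ (Z f).ncard ∧
        ¬ ((Z f).ncard = k ∧
          Irreducible (MvPolynomial.map (Int.castRingHom (AlgebraicClosure ℚ)) f))} : ℝ) /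
      number a b (Sets k) H) atTop (𝓝 0) ∧
    -- the law of the set of the integer solutions, uniformly for all sets of sets of `k` points
    (∀ ε : ℝ, 0 < ε → ∃ H₀ : ℕ, ∀ H : ℕ, H₀ ≤ H → ∀ A : Set (Finset (ℤ × ℤ)), A ⊆ Sets k →
      |(number a b A H : ℝ) / number a b (Sets k) H - μ V k A| ≤ ε) ∧
    -- bounds for all integer solutions of almost all polynomials
    (∀ B : ℕ → ℕ, Tendsto (fun H : ℕ => (number a b (Large k (B H)) H : ℝ) /
      number a b (Sets k) H) atTop (𝓝 0) ↔ Tendsto B atTop atTop) := by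
  classical
  obtain ⟨a, rfl⟩ : ∃ a', a = a' + 2 := ⟨a - 2, by omega⟩
  obtain ⟨b, rfl⟩ : ∃ b', b = b' + 2 := ⟨b - 2, by omega⟩
  obtain ⟨W, hW⟩ : ∃ W : Finset (ℤ × ℤ) → ℝ, W = (fmB a b).V := ⟨_, rfl⟩
  refine ⟨W, fun k hk hkm => ?_⟩
  have hmm : min (a + 2) (b + 2) = min a b + 2 := by omega
  rw [hmm] at hkm ⊢
  have he : k + 5 ≤ min a b + 2 := hkm
  have hN : (a + 2 + 1) * (b + 2 + 1) = Fintype.card (Ix a b) := by
    rw [card_Ix, mul_comm]
  simp only [hN]
  obtain ⟨n, hn⟩ : ∃ n, n = Fintype.card (Ix a b) := ⟨_, rfl⟩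
  have hcard : ∀ S ∈ Sets k, S.card = k := fun S h => h
  have hVpos : ∀ S, 0 < W S := fun S => by rw [hW]; exact (fmB a b).V_pos S
  have hsum : Summable (fun S : Sets k => W S.1) := by
    rw [hW]
    exact (D he).summable
  have hwtA : ∀ A : Set (Finset (ℤ × ℤ)), (∀ S ∈ A, S.card = k) →
      (D he).wt (inT k A) = ∑' S : A, W S.1 := by
    intro A hA
    rw [hW]
    exact datF_wt (fmB a b) he _ _ _ hA
  have hwt : (D he).wt Set.univ = ∑' S : Sets k, W S.1 := by
    have h1 := hwtA _ hcard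
    rw [inT_univ] at h1
    exact h1
  have hwt0 : 0 < ∑' S : Sets k, W S.1 := by
    rw [← hwt]
    obtain ⟨S, hS⟩ := exists_large hk 0
    exact (D he).wt_pos (i := ⟨S, hS.1⟩) (Set.mem_univ _)
  have hpos : 0 < (D he).wt Set.univ := by rw [hwt]; exact hwt0
  have hnum : ∀ H, (number (a + 2) (b + 2) (Sets k) H : ℝ) = (D he).N Set.univ H := by
    intro H
    rw [number_eq he hcard, inT_univ]
    rfl
  refine ⟨fun S _ => hVpos S, hsum, ?_, ?_, ?_, ?_, ?_, ?_, ?_, ?_⟩
  · refine ⟨1 / (3 * (Fintype.card (Ix a b) : ℝ)) ^ (min a b + 2 + 1),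
      Fm.CG (min a b + 2) (Ix a b), ?_, fun S hS => ?_⟩
    · have h1 := (fmB a b).le_card
      have : (0 : ℝ) < Fintype.card (Ix a b) := by
        exact_mod_cast (by omega : 0 < Fintype.card (Ix a b))
      positivity
    · have hS' : S.card = k := hS
      have hB1 : ∀ P : ℤ × ℤ,
          1 ≤ (max 1 P.1.natAbs) ^ (a + 2) * (max 1 P.2.natAbs) ^ (b + 2) := by
        intro P
        have h1 : 1 ≤ max 1 P.1.natAbs := le_max_left _ _
        have h2 : 1 ≤ max 1 P.2.natAbs := le_max_left _ _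
        exact Nat.mul_pos (Nat.pow_pos h1) (Nat.pow_pos h2)
      have h1 := (fmB a b).V_ge mon_le hB1 S (by rw [hS']; omega)
      have h2 := (fmB a b).V_le S (by rw [hS']; omega)
      rw [hS'] at h2
      rw [product_eq, hW]
      exact ⟨h1, h2⟩
  · obtain ⟨c, hc, h1⟩ := tail_lowB (a := a) (b := b) hk (by omega)
    obtain ⟨C, hC, h2⟩ := (fmB a b).tail_up (k := k) (by omega)
    obtain ⟨w, hw⟩ : ∃ w, w = ∑' S : Sets k, W S.1 := ⟨_, rfl⟩
    have hLs : ∀ T, Summable ((Large k T).indicator fun S => W S) := by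
      intro T
      have h3 : Summable ((Sets k).indicator fun S => W S) :=
        summable_subtype_iff_indicator.1 hsum
      refine Summable.of_nonneg_of_le (fun S => Set.indicator_nonneg (fun S _ => (hVpos S).le) S)
        (fun S => ?_) h3
      exact Set.indicator_le_indicator_of_subset (fun S hS => hS.1) (fun S => (hVpos S).le) S
    have hLt : ∀ T, ∑' S : Large k T, W S.1 =
        ∑' S, (Large k T).indicator (fun S => W S) S := fun T =>
      _root_.tsum_subtype (Large k T) (fun S => W S)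
    rw [← hw] at hwt0
    refine ⟨c / w, C / w, by positivity, fun T hT => ?_⟩
    have hT0 : (0 : ℝ) < T := by exact_mod_cast hT
    have hμ : μ W k (Large k T) =
        (∑' S, (Large k T).indicator (fun S => W S) S) / w := by
      unfold μ
      rw [hLt, hw]
    rw [hμ]
    have e1 : min a b + 2 - 1 = min a b + 1 := by omega
    rw [e1, div_right_comm, div_right_comm C]
    constructor
    · obtain ⟨F, hF1, hF2⟩ := h1 T hT
      apply div_le_div_of_nonneg_right _ hwt0.le
      refine hF2.trans ?_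
      rw [← hW]
      have h3 : ∑ S ∈ F, W S = ∑ S ∈ F, (Large k T).indicator (fun S => W S) S := by
        refine Finset.sum_congr rfl fun S hS => ?_
        rw [Set.indicator_of_mem (show S ∈ Large k T from hF1 S hS)]
      rw [h3]
      exact (hLs T).sum_le_tsum _ fun S _ => Set.indicator_nonneg (fun S _ => (hVpos S).le) S
    · apply div_le_div_of_nonneg_right _ hwt0.le
      refine Real.tsum_le_of_sum_le
        (fun S => Set.indicator_nonneg (fun S _ => (hVpos S).le) S) fun F => ?_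
      have h3 : ∑ S ∈ F, (Large k T).indicator (fun S => W S) S =
          ∑ S ∈ F.filter (fun S => S ∈ Large k T), W S := by
        rw [Finset.sum_filter]
        refine Finset.sum_congr rfl fun S _ => ?_
        rw [Set.indicator_apply]
      rw [h3, hW]
      exact h2 T hT _ fun S hS => (Finset.mem_filter.1 hS).2
  · intro S hS
    rw [hW]
    refine ((D he).lim ⟨S, hS⟩).congr fun H => ?_
    rw [ncard_fam a b H (fun f => (S : Set (ℤ × ℤ)) ⊆ Z f)]
    have h1 : {w : Ix a b → ℤ | w ∈ (fmB a b).fam (tp a b) H ∧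
        (S : Set (ℤ × ℤ)) ⊆ Z (pB (i := a + 2) (j := b + 2) w)} =
        {w : Ix a b → ℤ | w ∈ (fmB a b).fam (tp a b) H ∧ ∀ P ∈ S, (fmB a b).Ev w P = 0} := by
      ext w
      exact and_congr_right fun _ => through w S
    rw [h1]
    rfl
  · simp only [hnum, ← hwt]
    exact (D he).lim_set Set.univ
  · simp only [hnum]
    obtain ⟨C, hC, h1⟩ := fewBig (a := a) (b := b) (k := k) (by omega)
    have hle := (fmB a b).le_card
    have h2 : Tendsto (fun H : ℕ => (Set.ncard {f ∈ Box (a + 2) (b + 2) H |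
        ¬ (Z f).Finite} : ℝ) / (H : ℝ) ^ (Fintype.card (Ix a b) - k)) atTop (𝓝 0) := by
      have h3 : Tendsto (fun H : ℕ => C / (H : ℝ)) atTop (𝓝 0) :=
        tendsto_const_nhds.div_atTop tendsto_natCast_atTop_atTop
      refine squeeze_zero' (Eventually.of_forall fun H => by positivity) ?_ h3
      filter_upwards [eventually_ge_atTop 1] with H hH
      have hH0 : (0 : ℝ) < H := by exact_mod_cast hH
      obtain ⟨T, hT⟩ : ∃ T : Finset (Ix a b → ℤ), T = (ibox (Ix a b) H).filter fun w =>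
        w (tp a b) ≠ 0 ∧ ¬ {P : ℤ × ℤ | (fmB a b).Ev w P = 0}.Finite := ⟨_, rfl⟩
      have h4 := h1 H hH T (by rw [hT]; exact Finset.filter_subset _ _) (by
        intro w hw
        rw [hT, Finset.mem_filter] at hw
        exact ⟨hw.2.1, (fmB a b).exists_large hw.2.2 H⟩)
      have h5 : Set.ncard {f ∈ Box (a + 2) (b + 2) H | ¬ (Z f).Finite} = T.card := by
        rw [ncard_box a b H (fun f => ¬ (Z f).Finite), hT, ← Set.ncard_coe_finset]
        congr 1
        ext w
        rw [Finset.mem_coe, Finset.mem_filter]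
        simp only [Z_eq]
        rfl
      rw [h5]
      have e1 : (H : ℝ) ^ (Fintype.card (Ix a b) - k) =
          (H : ℝ) ^ (Fintype.card (Ix a b) - (k + 1)) * H := by
        rw [← pow_succ]
        congr 1
        omega
      rw [div_le_div_iff₀ (by positivity) hH0, e1]
      calc (T.card : ℝ) * H ≤ (C * (H : ℝ) ^ (Fintype.card (Ix a b) - (k + 1))) * H := by gcongr
        _ = _ := by ring
    exact (D he).div_zero hpos h2
  · simp only [hnum]
    have h1 := (D he).rare (fun w : Ix a b → ℤ => ¬ Irreducible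
      (MvPolynomial.map (Int.castRingHom (AlgebraicClosure ℚ))
        (pB (i := a + 2) (j := b + 2) w))) (by
        intro i
        have hi : i.1.card = k := i.2
        exact irr_rareF (a := a) (b := b) (by omega) i.1 hi
          (Finset.card_pos.1 (by rw [hi]; omega)))
    have h2 := ((D he).div_zero hpos (D he).two_rare).add ((D he).div_zero hpos h1)
    rw [add_zero] at h2
    refine squeeze_zero (fun H => div_nonneg (Nat.cast_nonneg _) ((D he).N_nonneg _ _))
      (fun H => ?_) h2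
    rw [← add_div]
    apply div_le_div_of_nonneg_right _ ((D he).N_nonneg _ _)
    rw [ncard_fam a b H (fun f => k ≤ (Z f).ncard ∧
        ¬ ((Z f).ncard = k ∧
          Irreducible (MvPolynomial.map (Int.castRingHom (AlgebraicClosure ℚ)) f)))]
    have hsub : {w : Ix a b → ℤ | w ∈ (fmB a b).fam (tp a b) H ∧
        (k ≤ (Z (pB (i := a + 2) (j := b + 2) w)).ncard ∧
        ¬ ((Z (pB (i := a + 2) (j := b + 2) w)).ncard = k ∧
          Irreducible (MvPolynomial.map (Int.castRingHom (AlgebraicClosure ℚ))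
            (pB (i := a + 2) (j := b + 2) w))))} ⊆
        {w : Ix a b → ℤ | w ∈ (fmB a b).fam (tp a b) H ∧
          ∃ i j : {S : Finset (ℤ × ℤ) // S.card = k}, i ≠ j ∧
          (∀ P ∈ i.1, (fmB a b).Ev w P = 0) ∧ ∀ P ∈ j.1, (fmB a b).Ev w P = 0} ∪
        {w : Ix a b → ℤ | w ∈ (fmB a b).fam (tp a b) H ∧
          (∃ i : {S : Finset (ℤ × ℤ) // S.card = k}, ∀ P ∈ i.1, (fmB a b).Ev w P = 0) ∧
          ¬ Irreducible (MvPolynomial.map (Int.castRingHom (AlgebraicClosure ℚ))
            (pB (i := a + 2) (j := b + 2) w))} := by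
      rintro w ⟨h3, h4, h5⟩
      have hfin := ((fmB a b).mem_fam.1 h3).2.2
      rw [← Z_eq] at hfin
      rw [Set.ncard_eq_toFinset_card _ hfin] at h4 h5
      by_cases h6 : Irreducible (MvPolynomial.map (Int.castRingHom (AlgebraicClosure ℚ))
            (pB (i := a + 2) (j := b + 2) w))
      · left
        refine ⟨h3, ?_⟩
        have h7 : k + 1 ≤ hfin.toFinset.card := by
          by_contra h8
          exact h5 ⟨by omega, h6⟩
        obtain ⟨S, hS1, hS2⟩ := Finset.exists_subset_card_eq h7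
        have hz : ∀ P ∈ S, (fmB a b).Ev w P = 0 := by
          intro P hP
          exact (mem_Z w P).1 ((Set.Finite.mem_toFinset hfin).1 (hS1 hP))
        obtain ⟨P, hP, Q, hQ, hPQ⟩ := Finset.one_lt_card.1 (by omega : 1 < S.card)
        refine ⟨⟨S.erase P, by rw [Finset.card_erase_of_mem hP]; omega⟩,
          ⟨S.erase Q, by rw [Finset.card_erase_of_mem hQ]; omega⟩, ?_, ?_, ?_⟩
        · intro h8
          have h9 : S.erase P = S.erase Q := congrArg Subtype.val h8
          have h10 : P ∈ S.erase Q := Finset.mem_erase.2 ⟨hPQ, hP⟩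
          rw [← h9] at h10
          exact (Finset.mem_erase.1 h10).1 rfl
        · intro R hR
          exact hz R (Finset.mem_of_mem_erase hR)
        · intro R hR
          exact hz R (Finset.mem_of_mem_erase hR)
      · right
        obtain ⟨S, hS1, hS2⟩ := Finset.exists_subset_card_eq h4
        refine ⟨h3, ⟨⟨S, hS2⟩, fun P hP => ?_⟩, h6⟩
        exact (mem_Z w P).1 ((Set.Finite.mem_toFinset hfin).1 (hS1 hP))
    have hf1 : {w : Ix a b → ℤ | w ∈ (fmB a b).fam (tp a b) H ∧
          ∃ i j : {S : Finset (ℤ × ℤ) // S.card = k}, i ≠ j ∧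
          (∀ P ∈ i.1, (fmB a b).Ev w P = 0) ∧ ∀ P ∈ j.1, (fmB a b).Ev w P = 0}.Finite :=
      ((fmB a b).fam (tp a b) H).finite_toSet.subset fun w h => h.1
    have hf2 : {w : Ix a b → ℤ | w ∈ (fmB a b).fam (tp a b) H ∧
          (∃ i : {S : Finset (ℤ × ℤ) // S.card = k}, ∀ P ∈ i.1, (fmB a b).Ev w P = 0) ∧
          ¬ Irreducible (MvPolynomial.map (Int.castRingHom (AlgebraicClosure ℚ))
            (pB (i := a + 2) (j := b + 2) w))}.Finite :=
      ((fmB a b).fam (tp a b) H).finite_toSet.subset fun w h => h.1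
    have h3 := (Set.ncard_le_ncard hsub (hf1.union hf2)).trans (Set.ncard_union_le _ _)
    have h4 := (Nat.cast_le (α := ℝ)).2 h3
    rw [Nat.cast_add] at h4
    exact h4
  · intro ε hε
    have h1 := (D he).ratio hpos hε
    rw [eventually_atTop] at h1
    obtain ⟨H₀, h2⟩ := h1
    refine ⟨H₀, fun H hH A hA => ?_⟩
    have h3 := h2 H hH (inT k A)
    rw [hnum, number_eq he (fun S hS => hA hS)]
    unfold μ
    rw [← hwt, ← hwtA A (fun S hS => hA hS)]
    exact h3
  · intro B
    have h1 := (D he).bound_iff (fun T => inT k (Large k T)) ?_ ?_ ?_ B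
    · rw [← h1]
      apply tendsto_congr
      intro H
      rw [hnum, number_eq he (fun S hS => hS.1)]
    · intro T T' hTT i hi
      obtain ⟨h2, P, hP, h3⟩ := hi
      exact ⟨h2, P, hP, lt_of_le_of_lt hTT h3⟩
    · intro T
      obtain ⟨S, hS⟩ := exists_large hk T
      exact ⟨⟨S, hS.1⟩, hS⟩
    · intro i
      refine ⟨i.1.sup size, fun hi => ?_⟩
      obtain ⟨h2, P, hP, h3⟩ := hi
      exact absurd (Finset.le_sup (f := size) hP) (not_le.2 h3)

end Pool.Agent.Results.MP_2d259b_nt.ManyPointsBidegree
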