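import Pool.Agent.Run7.h197.D.Deg

/-!
# MP_2d259b_nt: one explicit function bounds the integer points on the curves `T = C P^n`, `n` large

For `f ∈ ℤ[x, y]` let `len(f)` be the sum of the absolute values of the coefficients and

  `B(f) = len(f) * 3^(deg f)`,

a computable (even elementary) function of the list of coefficients.

Let `T` be a nonzero binary form over `ℤ` of degree `e ≥ 1`, and `s`, `D` natural numbers. We consider
the curves `f = 0` with

  `f = T - C P^n`, `C = C₁ C₂` a nonzero integer, `P` ANY polynomial over `ℤ` of degree between `1` and `D`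

such that `P(0, 0) ≠ 0`, `C₂ P(0, 0)` has at most `s` prime factors, and each point at infinity of `P = 0`
is different from two points at infinity of `T = 0` (this holds for all `P` if `T` has three different
zeros on the projective line).

**Theorem.** There is `κ` (depending on `T`, `s`, `D`) such that for all these `f` with
`n > (2 + log |C₁| + log rad(C₂ P(0, 0)) + log len(P))^κ` the set `Z(f)` is finite and all `(a, b)` in
`Z(f)` satisfy `max(|a|, |b|) ≤ B(f)`.

The function `B` is the same for all `T`, `s`, `D`, `C`, `P` and `n`. For fixed `T`, `C`, `P` the condition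
holds for all but finitely many `n`. The degree and the genus of the curves are not bounded, their
points at infinity are those of `P = 0` and can be conjugate over `ℚ` (for instance a single point, if
`P` is linear), so that Runge's method does not apply. (`B(f)` is of the right order of magnitude in the
following sense: the integer points on the lines through the origin on which `P` is constant can have
size `|C P(0,0)^n|^(1/e)`, which is a power of the constant coefficient of `f`.)

Proof. If `(x, y)` is an integer point, `|P(x, y)|^n ≤ |T(x, y)|` shows that `x/y` is close to a zero `α` of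
the leading form of `P`, a number of degree at most `D`. A prime dividing `x` and `y` and not `C` divides
`P(x, y)`, hence `P(0, 0)`, and the orders of `T(x, y)` at the other primes are multiples of `n`, up to the
order of `C₁`. Lower bounds for linear forms in logarithms which are sharp in one height and uniform in
all number fields of bounded degree (`Run7.h197.BK`, `Run7.h197.U`, `Run7.h197.D`) give
`max(|x|, |y|) ≤ |C P(0, 0)^n| exp(R^κ)`, where `R^κ < n` is the quantity in the theorem. Finally
`|C P(0,0)^n| = |f(0, 0)| ≤ len(f)` and `n ≤ deg f`.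
-/

set_option autoImplicit false

open MvPolynomial

namespace Pool.Agent.Results.MP_2d259b_nt.PowersOfPolynomials

/-- The sum of the absolute values of the coefficients. -/
def len (P : MvPolynomial (Fin 2) ℤ) : ℤ := ∑ d ∈ P.support, |P.coeff d|

/-- The product of the primes dividing `z`. -/
def radical (z : ℤ) : ℕ := ∏ p ∈ z.natAbs.primeFactors, p

/-- For every zero `z ≠ 0` of `Q` there are two zeros of `T` such that these three vectors are
pairwise not proportional. -/
def Separated (T Q : MvPolynomial (Fin 2) ℤ) : Prop :=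
  ∀ z : Fin 2 → ℂ, z ≠ 0 → aeval z Q = 0 → ∃ z₁ z₂ : Fin 2 → ℂ, aeval z₁ T = 0 ∧ aeval z₂ T = 0 ∧
    z 0 * z₁ 1 ≠ z 1 * z₁ 0 ∧ z 0 * z₂ 1 ≠ z 1 * z₂ 0 ∧ z₁ 0 * z₂ 1 ≠ z₁ 1 * z₂ 0

/-- The number `R = 2 + log |C₁| + log rad(C₂ P(0, 0)) + log len(P)` for `P = Q + P'`. -/
noncomputable def parameter (C₁ C₂ : ℤ) (Q P' : MvPolynomial (Fin 2) ℤ) : ℝ :=
  2 + Real.log C₁.natAbs + Real.log (radical (C₂ * eval ![0, 0] P')) +
    Real.log ((len Q + len P' : ℤ) : ℝ)

/-- The polynomials `T - C₁ C₂ P^n`, where `P = Q + P'` with a form `Q` of degree `d ≤ D` and a polynomial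
`P'` of smaller degree, `C₂ P(0, 0) ≠ 0` has at most `s` prime factors and `n > R^κ`. -/
def Family (T : MvPolynomial (Fin 2) ℤ) (s D κ : ℕ) (f : MvPolynomial (Fin 2) ℤ) : Prop :=
  ∃ (n : ℕ) (C₁ C₂ : ℤ) (d : ℕ) (Q P' : MvPolynomial (Fin 2) ℤ), C₁ ≠ 0 ∧ C₂ ≠ 0 ∧ 1 ≤ d ∧ d ≤ D ∧
    Q.IsHomogeneous d ∧ Q ≠ 0 ∧ P'.totalDegree < d ∧ Separated T Q ∧ eval ![0, 0] P' ≠ 0 ∧
    (C₂ * eval ![0, 0] P').natAbs.primeFactors.card ≤ s ∧ parameter C₁ C₂ Q P' ^ κ < n ∧
    f = T - C (C₁ * C₂) * (Q + P') ^ n

/-- The function `B(f) = len(f) * 3^(deg f)`. -/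
def bound (f : MvPolynomial (Fin 2) ℤ) : ℤ := len f * 3 ^ f.totalDegree

/-- **One explicit bound for the curves `T = C P^n`.** -/
theorem result (T : MvPolynomial (Fin 2) ℤ) (e : ℕ) (hT : T.IsHomogeneous e) (hT0 : T ≠ 0)
    (he : 1 ≤ e) (s D : ℕ) :
    ∃ κ : ℕ, ∀ f : MvPolynomial (Fin 2) ℤ, Family T s D κ f →
      {p : ℤ × ℤ | eval ![p.1, p.2] f = 0}.Finite ∧
      ∀ a b : ℤ, eval ![a, b] f = 0 → max |a| |b| ≤ bound f := by
  obtain ⟨κ, h⟩ := Run7.h197.D.lenDeg hT hT0 he s D
  have key : ∀ f : MvPolynomial (Fin 2) ℤ, Family T s D κ f →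
      ∀ a b : ℤ, eval ![a, b] f = 0 → max |a| |b| ≤ bound f := by
    rintro f ⟨n, C₁, C₂, d, Q, P', hC₁, hC₂, hd, hdD, hQ, hQ0, hP', hsep, h0, hs, hn, rfl⟩ a b hab
    exact h n C₁ C₂ d Q P' hC₁ hC₂ hd hdD hQ hQ0 hP' hsep h0 hs hn a b hab
  refine ⟨κ, fun f hf => ⟨?_, key f hf⟩⟩
  refine ((Set.finite_Icc (-bound f) (bound f)).prod (Set.finite_Icc (-bound f) (bound f))).subset ?_
  rintro ⟨a, b⟩ hab
  have h1 := key f hf a b hab
  exact ⟨Set.mem_Icc.2 (abs_le.1 ((le_max_left _ _).trans h1)),
    Set.mem_Icc.2 (abs_le.1 ((le_max_right _ _).trans h1))⟩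

end Pool.Agent.Results.MP_2d259b_nt.PowersOfPolynomials
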